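import Mathlib
import Pool.Agent.R389.Compl

/-!
# The UCT and crossed products: definitions

`K` is the category KK: its objects are the separable C*-algebras and its morphisms the groups
`KK(A, B)`; it is a triangulated category (the shift is the suspension, the coproducts of countable
families are the direct sums of C*-algebras).
-/

set_option autoImplicit false
set_option linter.unusedSectionVars false

namespace Pool.Agent.W2helper33.UC

open CategoryTheory CategoryTheory.Limits CategoryTheory.Pretriangulated Pool.Agent.R389
  Pool.Agent.H541R3.ART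

universe u v w

/-- **Second countable real Lie groups** (countable discrete groups are included, as Lie groups of
dimension zero). -/
def IsLie (G : Type) [Group G] [TopologicalSpace G] : Prop :=
  T2Space G ∧ SecondCountableTopology G ∧
    ∃ (n : ℕ) (_ : ChartedSpace (EuclideanSpace ℝ (Fin n)) G),
      LieGroup (modelWithCornersSelf ℝ (EuclideanSpace ℝ (Fin n))) 1 G

/-- **The Haagerup property** (a-T-menability, satisfied by all amenable groups): there is a
continuous conditionally negative definite function `ψ` on `G` which is proper. -/
def Haagerup (G : Type) [Group G] [TopologicalSpace G] : Prop :=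
  ∃ ψ : G → ℝ, Continuous ψ ∧ ψ 1 = 0 ∧ (∀ g, ψ g⁻¹ = ψ g) ∧
    (∀ (s : Finset G) (c : G → ℝ), ∑ g ∈ s, c g = 0 →
      ∑ g ∈ s, ∑ h ∈ s, c g * c h * ψ (g⁻¹ * h) ≤ 0) ∧
    ∀ R : ℝ, IsCompact {g | ψ g ≤ R}

/-- A known theorem on Lie groups: an infinite compact subgroup of a Lie group contains elements of
all prime orders (it is a compact Lie group of positive dimension and contains a circle). -/
def CompactLie : Prop :=
  ∀ (G : Type) [Group G] [TopologicalSpace G], IsLie G → ∀ H : Subgroup G,
    IsCompact (H : Set G) → ¬ Finite H → ∀ p : ℕ, p.Prime → ∃ h ∈ H, orderOf h = p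

/-- the representation ring of `F`: the additive group generated by the irreducible complex
characters -/
def RepRing (F : Type) [Group F] : AddSubgroup (F → ℂ) := AddSubgroup.closure (Irr F)

/-- the character induced from a one-dimensional character of a subgroup -/
noncomputable def indChar {F : Type} [Group F] (E : Subgroup F) (χ : E →* ℂˣ) : F → ℂ :=
  ind E (fun e => ((χ e : ℂˣ) : ℂ))

section cat

variable {K : Type u} [Category.{v} K] [Preadditive K] [HasZeroObject K] [HasShift K ℤ]
  [∀ n : ℤ, (shiftFunctor K n).Additive] [Pretriangulated K]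

/-- **The localizing subcategory generated by the objects in `S`**: the smallest class of objects
which contains `S` and is closed under isomorphisms, shifts, cones and countable coproducts. -/
inductive Loc (S : K → Prop) : K → Prop
  | of (X : K) : S X → Loc S X
  | iso (X Y : K) (e : X ≅ Y) : Loc S X → Loc S Y
  | shift (X : K) (n : ℤ) : Loc S X → Loc S (X⟦n⟧)
  | cone (T : Triangle K) : T ∈ distTriang K → Loc S T.obj₁ → Loc S T.obj₂ → Loc S T.obj₃
  | coprod (ι : Type) [Countable ι] (X : ι → K) (c : Cofan X) : Nonempty (IsColimit c) →
      (∀ i, Loc S (X i)) → Loc S c.pt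

/-- multiplication by `n` is an automorphism of `X` in KK -/
def Inverts (n : ℕ) (X : K) : Prop := IsIso ((n : ℤ) • 𝟙 X)

end cat

/-- The data: C*-algebras with group actions and their crossed products. -/
structure Theory (K : Type u) where
  /-- the C*-algebra of the complex numbers -/
  unit : K
  /-- the nuclear C*-algebras -/
  Nuclear : K → Prop
  /-- the separable `G`-C*-algebras -/
  Alg : ∀ (G : Type) [Group G] [TopologicalSpace G], Type w
  /-- the underlying C*-algebra of a `G`-C*-algebra -/
  under : ∀ {G : Type} [Group G] [TopologicalSpace G], Alg G → K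
  /-- the reduced crossed product `A ⋊ G` (`G` second countable and locally compact) -/
  cross : ∀ {G : Type} [Group G] [TopologicalSpace G], Alg G → K
  /-- restriction of the action to a subgroup -/
  res : ∀ {G : Type} [Group G] [TopologicalSpace G] (H : Subgroup G), Alg G → Alg H

section defs

variable {K : Type u} [Category.{v} K] [Preadditive K] [HasZeroObject K] [HasShift K ℤ]
  [∀ n : ℤ, (shiftFunctor K n).Additive] [Pretriangulated K] (T : Theory.{u, w} K)

/-- `K_*(B) = 0`: all the groups `KK(ℂ, Σⁿ B)` vanish. -/
def Theory.KTrivial (B : K) : Prop := ∀ n : ℤ, Subsingleton (T.unit ⟶ B⟦n⟧)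

/-- **The UCT** for `A`: `KK(A, B) = 0` for all `B` with `K_*(B) = 0`. -/
def Theory.UCT (A : K) : Prop := ∀ B : K, T.KTrivial B → Subsingleton (A ⟶ B)

/-- **Q1**: every separable nuclear C*-algebra satisfies the UCT. -/
def Theory.Q1 : Prop := ∀ A : K, T.Nuclear A → T.UCT A

/-- **Q1 with `n` inverted**: every separable nuclear C*-algebra for which multiplication by `n` is
invertible in KK satisfies the UCT. -/
def Theory.Away (n : ℕ) : Prop := ∀ A : K, T.Nuclear A → Inverts n A → T.UCT A

/-- **The UCT modulo `p`** for `A`: the groups `KK(A, B)` with `K_*(B) = 0` are uniquely `p`-divisible.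
(Equivalently, the cone of the multiplication by `p` on `A` satisfies the UCT.) -/
def Theory.UCTmod (p : ℕ) (A : K) : Prop :=
  ∀ B : K, T.KTrivial B → Function.Bijective (fun f : A ⟶ B => (p : ℤ) • f)

/-- **Crossed products by `G` preserve the UCT** for nuclear algebras. -/
def Theory.Preserves (G : Type) [Group G] [TopologicalSpace G] : Prop :=
  ∀ A : T.Alg G, T.Nuclear (T.under A) → T.UCT (T.under A) → T.UCT (T.cross A)

/-- **Crossed products by `G` of contractible algebras satisfy the UCT**: `A ⋊ G` satisfies the UCT
for every nuclear `G`-algebra `A` which is zero in KK (that is, `A` satisfies the UCT and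
`K_*(A) = 0`). -/
def Theory.Contractible (G : Type) [Group G] [TopologicalSpace G] : Prop :=
  ∀ A : T.Alg G, T.Nuclear (T.under A) → IsZero (T.under A) → T.UCT (T.cross A)

/-- restriction does not change the algebra -/
def Theory.RestrictionUnder : Prop :=
  ∀ (G : Type) [Group G] [TopologicalSpace G] (H : Subgroup G) (A : T.Alg G),
    T.under (T.res H A) = T.under A

/-- crossed products by the trivial group -/
def Theory.TrivialGroups : Prop :=
  ∀ (G : Type) [Group G] [TopologicalSpace G] [Subsingleton G] (A : T.Alg G),
    Nonempty (T.cross A ≅ T.under A)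

/-- crossed products of nuclear algebras by compact groups are nuclear -/
def Theory.NuclearCross : Prop :=
  ∀ (C : Type) [Group C] [TopologicalSpace C] [IsTopologicalGroup C]
    [CompactSpace C] [T2Space C] [SecondCountableTopology C] (A : T.Alg C),
    T.Nuclear (T.under A) → T.Nuclear (T.cross A)

/-- tensor product with the UHF algebra `M_{p^∞}`: it is the telescope of the multiplication by
`p`, and the primes different from `p` are invertible on the cone of `A → A ⊗ M_{p^∞}` -/
def Theory.UHF : Prop :=
  ∀ (A : K) (p : ℕ), p.Prime → ∃ (A' C : K) (ι : A ⟶ A') (a : A' ⟶ C) (b : C ⟶ A⟦(1 : ℤ)⟧),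
    Triangle.mk ι a b ∈ distTriang K ∧ (T.Nuclear A → T.Nuclear A') ∧ Inverts p A' ∧
    (∀ q : ℕ, q.Prime → q ≠ p → Inverts q C) ∧
    ∀ (B : K) (f : ℕ → (A ⟶ B)), (∀ n, (p : ℤ) • f (n + 1) = f n) → ∃ g : A' ⟶ B, ι ≫ g = f 0

/-- induction from a finite subgroup `H` of a Lie group `G`: the induced algebra `A = Ind B` is the
algebra of sections vanishing at infinity of a locally trivial bundle over the manifold `G / H`
with fibre `B`, and `A ⋊ G` is Morita equivalent to `B ⋊ H` (Green's imprimitivity theorem) -/
def Theory.Induction : Prop :=
  ∀ (G : Type) [Group G] [TopologicalSpace G], IsLie G → ∀ (H : Subgroup G), Finite H →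
    ∀ B : T.Alg H, ∃ A : T.Alg G, Loc (fun X => X = T.under B) (T.under A) ∧
      (T.Nuclear (T.under B) → T.Nuclear (T.under A)) ∧ Nonempty (T.cross A ≅ T.cross B)

/-- iterated crossed products (Packer and Raeburn): for a normal subgroup `N` of a finite group
`F` there is an `F / N`-algebra `A'` which is stably isomorphic to `A ⋊ N` and whose crossed product
is stably isomorphic to `A ⋊ F` -/
def Theory.IteratedCross : Prop :=
  ∀ (F : Type) [Group F] [TopologicalSpace F] [DiscreteTopology F] [Finite F]
    (N : Subgroup F) [N.Normal] (A : T.Alg F),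
    ∃ A' : T.Alg (F ⧸ N), Nonempty (T.under A' ≅ T.cross (T.res N A)) ∧
      (T.Nuclear (T.cross (T.res N A)) → T.Nuclear (T.under A')) ∧
      Nonempty (T.cross A' ≅ T.cross A)

/-- the action of the representation ring `R(F) = KK^F(ℂ, ℂ)` of a finite group `F` on `A ⋊ F`, and
Frobenius reciprocity: the class of a representation induced from a one-dimensional
representation of a subgroup `E` acts through `A ⋊ E` -/
def Theory.RepresentationRing : Prop :=
  ∀ (F : Type) [Group F] [TopologicalSpace F] [DiscreteTopology F] [Finite F]
    (A : T.Alg F), ∃ act : (F → ℂ) → (T.cross A ⟶ T.cross A),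
      (∀ x ∈ RepRing F, ∀ y ∈ RepRing F, act (x - y) = act x - act y) ∧ act 1 = 𝟙 _ ∧
      ∀ (E : Subgroup F) (χ : E →* ℂˣ),
        ∃ (a : T.cross A ⟶ T.cross (T.res E A)) (b : T.cross (T.res E A) ⟶ T.cross A),
          act (indChar E χ) = a ≫ b

/-- inversion of the Euler class `e ∈ R(C)` of the reduced regular representation of a group `C` of
prime order `p`, `N = A[1/e]`: without the action `N` is zero in KK, `p` is invertible on `N ⋊ C`,
and `A ⋊ C` is obtained from `A` and `N ⋊ C` (the cone of `e` is the algebra of continuous functions
on a sphere on which `C` acts freely) -/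
def Theory.Euler : Prop :=
  ∀ p : ℕ, p.Prime → ∀ (C : Type) [Group C] [TopologicalSpace C] [DiscreteTopology C],
    Nat.card C = p → ∀ A : T.Alg C, ∃ N : T.Alg C, IsZero (T.under N) ∧
      (T.Nuclear (T.under A) → T.Nuclear (T.under N)) ∧ Inverts p (T.cross N) ∧
      Loc (fun X => X = T.under A ∨ X = T.cross N) (T.cross A)

/-- the same for an algebra `A` with trivial action on which `p` is invertible: `N ⋊ C` is the sum of
`p - 1` copies of `A`, because `R(C)[1/e] = ℤ[ζ_p][1/p]` -/
def Theory.EulerTrivial : Prop :=
  ∀ p : ℕ, p.Prime → ∀ (C : Type) [Group C] [TopologicalSpace C]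
    [DiscreteTopology C], Nat.card C = p → ∀ A : K, Inverts p A → ∃ N : T.Alg C,
      IsZero (T.under N) ∧ (T.Nuclear A → T.Nuclear (T.under N)) ∧
      ∃ c : Cofan (fun _ : Fin (p - 1) => A), Nonempty (IsColimit c) ∧
        Nonempty (T.cross N ≅ c.pt)

/-- the theorem of Higson and Kasparov in the form of Meyer and Nest: for a Lie group `G` with the
Haagerup property `A ⋊ G` lies in the localizing subcategory generated by the crossed products by
the compact subgroups -/
def Theory.HigsonKasparov : Prop :=
  ∀ (G : Type) [Group G] [TopologicalSpace G], IsLie G → Haagerup G →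
    ∀ A : T.Alg G, Loc (fun X => ∃ H : Subgroup G, IsCompact (H : Set G) ∧
      X = T.cross (T.res H A)) (T.cross A)

/-- **The known properties of KK and of crossed products which are used.** -/
structure Theory.Facts : Prop where
  under_res : T.RestrictionUnder
  trivial : T.TrivialGroups
  nuclear_cross : T.NuclearCross
  uhf : T.UHF
  induced : T.Induction
  iterated : T.IteratedCross
  representations : T.RepresentationRing
  euler : T.Euler
  euler_trivial : T.EulerTrivial
  higsonKasparov : T.HigsonKasparov

end defs

end Pool.Agent.W2helper33.UC
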