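import Mathlib
import Pool.Agent.W2helper33.UC.Defs

/-!
# The UCT and crossed products: descent from `A ⋊ G` to `A`

`G` is an arbitrary countable discrete group.
-/

set_option autoImplicit false
set_option linter.unusedSectionVars false

namespace Pool.Agent.W2helper33.UC

open CategoryTheory CategoryTheory.Limits CategoryTheory.Pretriangulated

universe u v w

section defs

variable {K : Type u} [Category.{v} K] [Preadditive K] [HasZeroObject K] [HasShift K ℤ]
  [∀ n : ℤ, (shiftFunctor K n).Additive] [Pretriangulated K] (T : Theory.{u, w} K)

/-- **Descent of the UCT**: a nuclear `G`-algebra `A` satisfies the UCT if `A ⋊ G` does. -/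
def Theory.Descends (G : Type) [Group G] [TopologicalSpace G] : Prop :=
  ∀ A : T.Alg G, T.Nuclear (T.under A) → T.UCT (T.cross A) → T.UCT (T.under A)

/-- **Descent of the UCT from contractible crossed products**: a nuclear `G`-algebra `A` satisfies
the UCT if `A ⋊ G` is zero in KK. -/
def Theory.DescendsZero (G : Type) [Group G] [TopologicalSpace G] : Prop :=
  ∀ A : T.Alg G, T.Nuclear (T.under A) → IsZero (T.cross A) → T.UCT (T.under A)

/-- induction from a subgroup `H` of a countable discrete group `G`: the induced algebra `A = Ind B`
is the direct sum of copies of `B` indexed by `G / H`, and `A ⋊ G` is Morita equivalent to `B ⋊ H`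
(Green's imprimitivity theorem) -/
def Theory.InductionDiscrete : Prop :=
  ∀ (G : Type) [Group G] [TopologicalSpace G] [DiscreteTopology G] [Countable G]
    (H : Subgroup G) (B : T.Alg H), ∃ A : T.Alg G,
      (∃ c : Cofan (fun _ : G ⧸ H => T.under B), Nonempty (IsColimit c) ∧
        Nonempty (T.under A ≅ c.pt)) ∧
      (T.Nuclear (T.under B) → T.Nuclear (T.under A)) ∧ Nonempty (T.cross A ≅ T.cross B)

/-- Takai duality for a group `C` of prime order (identified with its dual group): the dual algebra
`A' = A ⋊ C` with the dual action, and `A' ⋊ C` is isomorphic to the matrices over `A` -/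
def Theory.Takai : Prop :=
  ∀ p : ℕ, p.Prime → ∀ (C : Type) [Group C] [TopologicalSpace C] [DiscreteTopology C],
    Nat.card C = p → ∀ A : T.Alg C, ∃ A' : T.Alg C, Nonempty (T.under A' ≅ T.cross A) ∧
      (T.Nuclear (T.under A) → T.Nuclear (T.under A')) ∧ Nonempty (T.cross A' ≅ T.under A)

/-- an action of the infinite cyclic group on `A' = A ⊗ C_0(ℝ × Y)`, `Y` the union of three rays
`[0, ∞)` with a common origin: the generator acts by `x ↦ -x` on `ℝ` and by the rotation `r` of `Y`.
In KK the algebra `A'` is `A ⊕ A` (Bott periodicity), the generator acts by `- r` with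
`1 + r + r² = 0`, so `1 + r = - r²` is invertible and `A' ⋊ ℤ` is zero (Pimsner–Voiculescu). -/
def Theory.Integers : Prop :=
  ∀ (C : Type) [Group C] [TopologicalSpace C] [DiscreteTopology C] [IsCyclic C] [Infinite C]
    (A : K), T.Nuclear A → ∃ A' : T.Alg C, T.Nuclear (T.under A') ∧ IsZero (T.cross A') ∧
      ∃ (i : A ⟶ T.under A') (r : T.under A' ⟶ A), i ≫ r = 𝟙 A

/-- **The known properties of KK and of crossed products which are used for the descent.** -/
structure Theory.DescentFacts : Prop where
  under_res : T.RestrictionUnder
  trivial : T.TrivialGroups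
  nuclear_cross : T.NuclearCross
  uhf : T.UHF
  iterated : T.IteratedCross
  euler : T.Euler
  euler_trivial : T.EulerTrivial
  induced : T.InductionDiscrete
  takai : T.Takai
  integers : T.Integers

end defs

end Pool.Agent.W2helper33.UC
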