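import Mathlib
import Pool.Agent.W2helper33.UC.Defs
import Pool.Agent.R389.Brauer

/-!
# The UCT and crossed products by groups with torsion
-/

set_option autoImplicit false
set_option linter.unusedSectionVars false

namespace Pool.Agent.W2helper33.UC

open CategoryTheory CategoryTheory.Limits CategoryTheory.Pretriangulated Pool.Agent.R389
  Pool.Agent.H541R3.ART Pool.Agent.W446.AS

universe u v w

section groups

/-- finite groups have the Haagerup property -/
lemma haagerup_of_finite (G : Type) [Group G] [TopologicalSpace G] [Finite G] : Haagerup G :=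
  ⟨fun _ => 0, continuous_const, rfl, fun _ => rfl, fun s c _ => by simp,
    fun _ => (Set.toFinite _).isCompact⟩

/-- countable discrete groups are Lie groups -/
lemma isLie_of_discrete (G : Type) [Group G] [TopologicalSpace G] [DiscreteTopology G]
    [Countable G] : IsLie G := by
  refine ⟨inferInstance, inferInstance, 0, ChartedSpace.ofDiscreteTopology, ?_⟩
  let _ : ChartedSpace (EuclideanSpace ℝ (Fin 0)) G := ChartedSpace.ofDiscreteTopology
  let _ : ChartedSpace (EuclideanSpace ℝ (Fin 0) × EuclideanSpace ℝ (Fin 0)) (G × G) :=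
    prodChartedSpace _ _ _ _
  have h1 : IsManifold (modelWithCornersSelf ℝ (EuclideanSpace ℝ (Fin 0))) 1 G :=
    IsManifold.of_discreteTopology _
  exact
    { contMDiff_mul := contMDiff_of_discreteTopology
      contMDiff_inv := contMDiff_of_discreteTopology }

/-- Lie groups are topological groups -/
lemma isTopGroup {G : Type} [Group G] [TopologicalSpace G] (hG : IsLie G) :
    IsTopologicalGroup G := by
  obtain ⟨-, -, n, h1, h2⟩ := hG
  exact topologicalGroup_of_lieGroup (modelWithCornersSelf ℝ (EuclideanSpace ℝ (Fin n))) 1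

lemma quot_discrete {F : Type} [Group F] [TopologicalSpace F] [DiscreteTopology F]
    (N : Subgroup F) : DiscreteTopology (F ⧸ N) := by
  rw [discreteTopology_iff_forall_isOpen]
  intro s
  exact isOpen_coinduced.mpr (isOpen_discrete _)

end groups

section cat

variable {K : Type u} [Category.{v} K] [Preadditive K] [HasZeroObject K] [HasShift K ℤ]
  [∀ n : ℤ, (shiftFunctor K n).Additive] [Pretriangulated K] {T : Theory.{u, w} K}

lemma ktriv_shift {B : K} (h : T.KTrivial B) (m : ℤ) : T.KTrivial (B⟦m⟧) := by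
  intro n
  have := h (m + n)
  refine ⟨fun f g => ?_⟩
  have e1 : f ≫ ((shiftFunctorAdd K m n).app B).inv = g ≫ ((shiftFunctorAdd K m n).app B).inv :=
    Subsingleton.elim _ _
  exact (cancel_mono _).mp e1

lemma uct_iso {X Y : K} (e : X ≅ Y) (h : T.UCT X) : T.UCT Y := by
  intro B hB
  have := h B hB
  refine ⟨fun f g => ?_⟩
  have e1 : e.hom ≫ f = e.hom ≫ g := Subsingleton.elim _ _
  exact (cancel_epi _).mp e1

lemma uct_shift {X : K} (h : T.UCT X) (n : ℤ) : T.UCT (X⟦n⟧) := by
  intro B hB
  have := h _ (ktriv_shift hB (-n))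
  refine ⟨fun f g => (shiftFunctor K (-n)).map_injective ?_⟩
  have e1 : (shiftShiftNeg X n).inv ≫ (shiftFunctor K (-n)).map f
      = (shiftShiftNeg X n).inv ≫ (shiftFunctor K (-n)).map g := Subsingleton.elim _ _
  exact (cancel_epi _).mp e1

lemma uct_of_zero {X : K} (h : ∀ B, T.KTrivial B → ∀ f : X ⟶ B, f = 0) : T.UCT X :=
  fun B hB => ⟨fun f g => by rw [h B hB f, h B hB g]⟩

lemma UCT_zero {X B : K} (h : T.UCT X) (hB : T.KTrivial B) (f : X ⟶ B) : f = 0 := by
  have := h B hB
  exact Subsingleton.elim _ _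

lemma uct_isZero {X : K} (h : IsZero X) : T.UCT X :=
  uct_of_zero fun _ _ f => h.eq_of_src f 0

/-- the UCT passes to localizing subcategories -/
lemma uct_loc {S : K → Prop} (hS : ∀ X, S X → T.UCT X) {X : K} (h : Loc S X) : T.UCT X := by
  induction h with
  | of X h => exact hS X h
  | iso X Y e _ h => exact uct_iso e h
  | shift X n _ h => exact uct_shift h n
  | cone D hD _ _ h1 h2 =>
    refine uct_of_zero fun B hB f => ?_
    obtain ⟨g, rfl⟩ := Triangle.yoneda_exact₃ D hD f (UCT_zero h2 hB _)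
    have h3 : g = 0 := UCT_zero (uct_shift h1 1) hB g
    rw [h3, comp_zero]
  | coprod ι X c hc _ h =>
    obtain ⟨hc⟩ := hc
    refine uct_of_zero fun B hB f => ?_
    refine Cofan.IsColimit.hom_ext hc _ _ fun i => ?_
    exact (UCT_zero (h i) hB _).trans (UCT_zero (h i) hB _).symm

/-- localizing subcategories generated by zero objects -/
lemma loc_isZero {S : K → Prop} (hS : ∀ X, S X → IsZero X) {X : K} (h : Loc S X) : IsZero X := by
  induction h with
  | of X h => exact hS X h
  | iso X Y e _ h => exact h.of_iso e.symm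
  | shift X n _ h => exact (shiftFunctor K n).map_isZero h
  | cone D hD _ _ h1 h2 =>
    rw [IsZero.iff_id_eq_zero]
    obtain ⟨g, hg⟩ := Triangle.yoneda_exact₃ D hD (𝟙 D.obj₃) (h2.eq_of_src _ _)
    have h3 : g = 0 := ((shiftFunctor K (1 : ℤ)).map_isZero h1).eq_of_src g 0
    rw [hg, h3, comp_zero]
  | coprod ι X c hc _ h =>
    obtain ⟨hc⟩ := hc
    rw [IsZero.iff_id_eq_zero]
    refine Cofan.IsColimit.hom_ext hc _ _ fun i => ?_
    exact (h i).eq_of_src _ _

/-- **Brauer induction**: nilpotent subgroups suffice -/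
lemma preserves_finite (hF : T.Facts) (F : Type) [Group F] [TopologicalSpace F]
    [DiscreteTopology F] [Finite F]
    (h : ∀ V : Subgroup F, Group.IsNilpotent V → T.Preserves V) : T.Preserves F := by
  intro A hn hu
  obtain ⟨act, hsub, h1, h2⟩ := hF.representations F A
  refine uct_of_zero fun B hB f => ?_
  have hz : act 0 = 0 := by
    have h3 := hsub 0 (zero_mem _) 0 (zero_mem _)
    rwa [sub_zero, sub_self] at h3
  have key : ∀ x ∈ PN F, x ∈ RepRing F ∧ act x ≫ f = 0 := by
    intro x hx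
    rw [PN] at hx
    induction hx using AddSubgroup.closure_induction with
    | mem x hx =>
      obtain ⟨V, χ, hV, rfl⟩ := hx
      have hv : ind V (fun e => ((χ e : ℂˣ) : ℂ)) ∈ RepRing F :=
        virt_ind V (AddSubgroup.subset_closure (lin_irr χ))
      obtain ⟨a, b, hab⟩ := h2 V χ
      refine ⟨hv, ?_⟩
      have hV' : T.UCT (T.cross (T.res V A)) := h V hV (T.res V A)
        (by rw [hF.under_res]; exact hn) (by rw [hF.under_res]; exact hu)
      have hab' : act (ind V (fun e => ((χ e : ℂˣ) : ℂ))) = a ≫ b := hab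
      rw [hab', Category.assoc, UCT_zero hV' hB (b ≫ f), comp_zero]
    | zero => exact ⟨zero_mem _, by rw [hz, zero_comp]⟩
    | add x y _ _ hx hy =>
      refine ⟨add_mem hx.1 hy.1, ?_⟩
      have h3 : act (-y) = - act y := by
        have h4 := hsub 0 (zero_mem _) y hy.1
        rwa [zero_sub, hz, zero_sub] at h4
      have h4 := hsub x hx.1 (-y) (neg_mem hy.1)
      rw [sub_neg_eq_add, h3, sub_neg_eq_add] at h4
      rw [h4, Preadditive.add_comp, hx.2, hy.2, add_zero]
    | neg x _ hx =>
      refine ⟨neg_mem hx.1, ?_⟩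
      have h4 := hsub 0 (zero_mem _) x hx.1
      rw [zero_sub, hz, zero_sub] at h4
      rw [h4, Preadditive.neg_comp, hx.2, neg_zero]
  have hx1 := (key _ (one_mem_pn (U := F))).2
  have h3 : act (fun _ : F => (1 : ℂ)) = 𝟙 _ := h1
  rw [h3, Category.id_comp] at hx1
  exact hx1

/-- groups of prime order -/
lemma preserves_prime (hF : T.Facts) {p : ℕ} (hp : p.Prime) (h : T.Away p) (C : Type) [Group C]
    [TopologicalSpace C] [DiscreteTopology C] (hC : Nat.card C = p) : T.Preserves C := by
  have : Finite C := Nat.finite_of_card_ne_zero (by rw [hC]; exact hp.ne_zero)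
  intro A hn hu
  obtain ⟨N, h1, h2, h3, h4⟩ := hF.euler p hp C hC A
  refine uct_loc ?_ h4
  rintro X (rfl | rfl)
  · exact hu
  · exact h _ (hF.nuclear_cross C N (h2 hn)) h3

/-- nilpotent groups -/
lemma preserves_nil (hF : T.Facts) : ∀ (n : ℕ) (E : Type) [Group E] [TopologicalSpace E]
    [DiscreteTopology E] [Finite E], Nat.card E = n → Group.IsNilpotent E →
    (∀ p : ℕ, p.Prime → p ∣ n → T.Away p) → T.Preserves E := by
  intro n
  induction n using Nat.strong_induction_on with
  | _ n ih =>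
    intro E _ _ _ _ hn hE hp
    classical
    rcases subsingleton_or_nontrivial E with hs | hs
    · intro A _ hu
      obtain ⟨e⟩ := hF.trivial E A
      exact uct_iso e.symm hu
    · have hZ : Nontrivial (Subgroup.center E) :=
        (Subgroup.nontrivial_iff_ne_bot _).mpr (Group.IsNilpotent.center_ne_bot _)
      have hc1 : Nat.card (Subgroup.center E) ≠ 1 := Finite.one_lt_card.ne'
      obtain ⟨p, hpp, hpd⟩ := Nat.exists_prime_and_dvd hc1
      have : Fact p.Prime := ⟨hpp⟩
      obtain ⟨z, hz⟩ := exists_prime_orderOf_dvd_card' p hpd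
      let N : Subgroup E := Subgroup.zpowers (z : E)
      have hzo : orderOf (z : E) = p := by rw [Subgroup.orderOf_coe, hz]
      have hNc : Nat.card N = p := by rw [Nat.card_zpowers, hzo]
      have hNn : N.Normal := by
        refine ⟨fun x hx g => ?_⟩
        have h1 : x ∈ Subgroup.center E := by
          obtain ⟨k, rfl⟩ := hx
          exact Subgroup.zpow_mem _ z.2 k
        rw [Subgroup.mem_center_iff.mp h1 g, mul_inv_cancel_right]
        exact hx
      have hPN : T.Preserves N := preserves_prime hF hpp (hp p hpp (by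
        rw [← hn]
        exact hpd.trans (Subgroup.card_subgroup_dvd_card _))) N hNc
      have hcard := Subgroup.card_eq_card_quotient_mul_card_subgroup N
      rw [hNc, hn] at hcard
      have hq0 : 0 < Nat.card (E ⧸ N) := Nat.card_pos
      have hlt : Nat.card (E ⧸ N) < n := by
        rw [hcard]
        have h2 := hpp.two_le
        nlinarith
      have := quot_discrete N
      have hPQ : T.Preserves (E ⧸ N) := ih _ hlt (E ⧸ N) rfl
        (Group.nilpotent_of_surjective (QuotientGroup.mk' N) (QuotientGroup.mk'_surjective N))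
        (fun q hq hqd => hp q hq (by rw [hcard]; exact hqd.mul_right _))
      intro A hnA huA
      obtain ⟨A', ⟨e1⟩, h2, ⟨e2⟩⟩ := hF.iterated E N A
      have hu1 : T.UCT (T.cross (T.res N A)) := hPN _ (by rw [hF.under_res]; exact hnA)
        (by rw [hF.under_res]; exact huA)
      have hn1 : T.Nuclear (T.cross (T.res N A)) := hF.nuclear_cross N _
        (by rw [hF.under_res]; exact hnA)
      exact uct_iso e2 (hPQ A' (h2 hn1) (uct_iso e1.symm hu1))

/-- finite groups -/
lemma preserves_fin (hF : T.Facts) (F : Type) [Group F] [TopologicalSpace F]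
    [DiscreteTopology F] [Finite F] (h : ∀ g : F, (orderOf g).Prime → T.Away (orderOf g)) :
    T.Preserves F := by
  refine preserves_finite hF F fun V hV => preserves_nil hF _ V rfl hV fun p hp hpd => ?_
  have : Fact p.Prime := ⟨hp⟩
  obtain ⟨z, hz⟩ := exists_prime_orderOf_dvd_card' p hpd
  have hz' : orderOf (z : F) = p := by rw [Subgroup.orderOf_coe, hz]
  have h1 := h (z : F)
  rw [hz'] at h1
  exact h1 hp

/-- sufficiency -/
lemma preserves_of (hF : T.Facts) {G : Type} [Group G] [TopologicalSpace G] (hL : IsLie G)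
    (hH : Haagerup G) (hC : ∀ H : Subgroup G, IsCompact (H : Set G) → Finite H)
    (h : ∀ g : G, (orderOf g).Prime → T.Away (orderOf g)) : T.Preserves G := by
  intro A hn hu
  have := hL.1
  refine uct_loc ?_ (hF.higsonKasparov G hL hH A)
  rintro X ⟨H, hHc, rfl⟩
  have := hC H hHc
  refine preserves_fin hF H (fun z hz => ?_) (T.res H A) (by rw [hF.under_res]; exact hn)
    (by rw [hF.under_res]; exact hu)
  have h1 := h (z : G)
  rw [Subgroup.orderOf_coe] at h1
  exact h1 hz

lemma contractible_of_preserves {G : Type} [Group G] [TopologicalSpace G]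
    (h : T.Preserves G) : T.Contractible G :=
  fun A hn hu => h A hn (uct_isZero hu)

/-- subgroups -/
lemma contractible_subgroup (hF : T.Facts) {G : Type} [Group G] [TopologicalSpace G]
    (hL : IsLie G) (H : Subgroup G) (hH : Finite H) (h : T.Contractible G) :
    T.Contractible H := by
  intro B hn hu
  obtain ⟨A, h1, h2, ⟨e⟩⟩ := hF.induced G hL H hH B
  exact uct_iso e (h A (h2 hn) (loc_isZero (by rintro X rfl; exact hu) h1))

/-- groups of prime order: contractible algebras know Q1 with `p` inverted -/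
lemma away_of_prime (hF : T.Facts) {p : ℕ} (hp : p.Prime) (C : Type) [Group C]
    [TopologicalSpace C] [DiscreteTopology C] (hC : Nat.card C = p) (h : T.Contractible C) :
    T.Away p := by
  intro A hn hi
  obtain ⟨N, h1, h2, c, ⟨hc⟩, ⟨e⟩⟩ := hF.euler_trivial p hp C hC A hi
  have h3 : T.UCT c.pt := uct_iso e (h N (h2 hn) h1)
  refine uct_of_zero fun B hB f => ?_
  have h4 : Cofan.IsColimit.desc hc (fun _ => f) = 0 := UCT_zero h3 hB _
  have h5 := Cofan.IsColimit.fac hc (fun _ => f) ⟨0, by have := hp.two_le; omega⟩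
  rw [← h5, h4, comp_zero]

/-- necessity, for all Lie groups -/
lemma away_of_contractible (hF : T.Facts) {G : Type} [Group G]
    [TopologicalSpace G] (hL : IsLie G) (h : T.Contractible G) (g : G)
    (hg : (orderOf g).Prime) : T.Away (orderOf g) := by
  have := hL.1
  have hc : Nat.card (Subgroup.zpowers g) = orderOf g := Nat.card_zpowers g
  have hfin : Finite (Subgroup.zpowers g) :=
    Nat.finite_of_card_ne_zero (by rw [hc]; exact hg.ne_zero)
  exact away_of_prime hF hg (Subgroup.zpowers g) hc (contractible_subgroup hF hL _ hfin h)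

/-- the main equivalences -/
theorem main_iff (hF : T.Facts) (G : Type) [Group G] [TopologicalSpace G]
    (hL : IsLie G) (hH : Haagerup G)
    (hC : ∀ H : Subgroup G, IsCompact (H : Set G) → Finite H) :
    (T.Preserves G ↔ T.Contractible G) ∧
    (T.Preserves G ↔ ∀ g : G, (orderOf g).Prime → T.Away (orderOf g)) :=
  ⟨⟨contractible_of_preserves, fun h => preserves_of hF hL hH hC
      (away_of_contractible hF hL h)⟩,
    ⟨fun h => away_of_contractible hF hL (contractible_of_preserves h),
      preserves_of hF hL hH hC⟩⟩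

lemma inverts_comp {n : ℕ} {X B : K} (h : Inverts n X) (f : X ⟶ B) :
    ∃ g : X ⟶ B, (n : ℤ) • g = f := by
  have h' : IsIso ((n : ℤ) • 𝟙 X) := h
  refine ⟨inv ((n : ℤ) • 𝟙 X) ≫ f, ?_⟩
  have h1 : (n : ℤ) • (inv ((n : ℤ) • 𝟙 X) ≫ f) = ((n : ℤ) • 𝟙 X) ≫ inv ((n : ℤ) • 𝟙 X) ≫ f := by
    rw [Preadditive.zsmul_comp, Category.id_comp]
  rw [h1, IsIso.hom_inv_id_assoc]

/-- **Two primes**: Q1 follows from Q1 with `p` inverted and Q1 with `q` inverted -/
theorem q1_of_away (hF : T.Facts) {p q : ℕ} (hp : p.Prime) (hq : q.Prime) (hne : p ≠ q)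
    (h1 : T.Away p) (h2 : T.Away q) : T.Q1 := by
  intro A hA
  refine uct_of_zero fun B hB f => ?_
  obtain ⟨Ap, -, ι, -, -, -, hn1, hi1, -, htel⟩ := hF.uhf A p hp
  obtain ⟨Aq, C, κ, a, b, htri, hn2, hi2, hC, -⟩ := hF.uhf A q hq
  have u1 : T.UCT Ap := h1 Ap (hn1 hA) hi1
  have u2 : T.UCT Aq := h2 Aq (hn2 hA) hi2
  have hCp : Inverts p C := hC p hp hne
  -- all morphisms to `B` are divisible by `p`
  have hdiv : ∀ f : A ⟶ B, ∃ g : A ⟶ B, (p : ℤ) • g = f := by
    intro f
    have hB1 : T.KTrivial (B⟦(1 : ℤ)⟧) := ktriv_shift hB 1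
    obtain ⟨h, hh⟩ := inverts_comp hCp (b ≫ (shiftFunctor K (1 : ℤ)).map f)
    obtain ⟨f', hf'⟩ := Triangle.yoneda_exact₃ _ htri h (UCT_zero u2 hB1 _)
    change A⟦(1 : ℤ)⟧ ⟶ B⟦(1 : ℤ)⟧ at f'
    change h = b ≫ f' at hf'
    have h3 : b ≫ ((p : ℤ) • f' - (shiftFunctor K (1 : ℤ)).map f) = 0 := by
      rw [Preadditive.comp_sub, Preadditive.comp_zsmul, ← hf', hh, sub_self]
    obtain ⟨k, hk⟩ := Triangle.yoneda_exact₂ _ (rot_of_distTriang _ (rot_of_distTriang _ htri))
      ((p : ℤ) • f' - (shiftFunctor K (1 : ℤ)).map f) h3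
    have hk0 : k = 0 := UCT_zero (uct_shift u2 1) hB1 k
    rw [hk0, comp_zero] at hk
    obtain ⟨g, rfl⟩ := (shiftFunctor K (1 : ℤ)).map_surjective f'
    refine ⟨g, (shiftFunctor K (1 : ℤ)).map_injective ?_⟩
    rw [Functor.map_zsmul]
    exact sub_eq_zero.mp hk
  choose d hd using hdiv
  obtain ⟨g, hg⟩ := htel B (fun n => d^[n] f) (fun n => by
    rw [Function.iterate_succ_apply']
    exact hd _)
  have : f = ι ≫ g := hg.symm
  rw [this, UCT_zero u1 hB g, comp_zero]

/-- Q1 gives all Lie groups with the Haagerup property -/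
theorem preserves_all (hF : T.Facts) (hQ : T.Q1) (G : Type) [Group G] [TopologicalSpace G]
    (hL : IsLie G) (hH : Haagerup G) : T.Preserves G := by
  intro A hn _
  have := hL.1
  have := hL.2.1
  have := isTopGroup hL
  refine uct_loc ?_ (hF.higsonKasparov G hL hH A)
  rintro X ⟨H, hHc, rfl⟩
  have : CompactSpace H := isCompact_iff_compactSpace.mp hHc
  have : SecondCountableTopology H := TopologicalSpace.Subtype.secondCountableTopology (H : Set G)
  exact hQ _ (hF.nuclear_cross H _ (by rw [hF.under_res]; exact hn))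

/-- two primes give Q1 -/
theorem q1_of_two (hF : T.Facts) (G : Type) [Group G] [TopologicalSpace G]
    (hL : IsLie G) (g h : G) (hg : (orderOf g).Prime) (hh : (orderOf h).Prime)
    (hne : orderOf g ≠ orderOf h) (hc : T.Contractible G) : T.Q1 :=
  q1_of_away hF hg hh hne (away_of_contractible hF hL hc g hg)
    (away_of_contractible hF hL hc h hh)

/-- the classification for all Lie groups with the Haagerup property -/
theorem main_all (hF : T.Facts) (hCL : CompactLie) (G : Type) [Group G]
    [TopologicalSpace G] (hL : IsLie G) (hH : Haagerup G) :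
    (T.Preserves G ↔ T.Contractible G) ∧
    (T.Preserves G ↔ ∀ g : G, (orderOf g).Prime → T.Away (orderOf g)) := by
  by_cases hC : ∀ H : Subgroup G, IsCompact (H : Set G) → Finite H
  · exact main_iff hF G hL hH hC
  · push Not at hC
    obtain ⟨H, hHc, hHf⟩ := hC
    obtain ⟨g, -, hg⟩ := hCL G hL H hHc (by rw [not_finite_iff_infinite]; exact hHf) 2 Nat.prime_two
    obtain ⟨h, -, hh⟩ := hCL G hL H hHc (by rw [not_finite_iff_infinite]; exact hHf) 3
      Nat.prime_three
    have hg' : (orderOf g).Prime := by rw [hg]; exact Nat.prime_two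
    have hh' : (orderOf h).Prime := by rw [hh]; exact Nat.prime_three
    have hne : orderOf g ≠ orderOf h := by rw [hg, hh]; norm_num
    have h1 : (∀ g : G, (orderOf g).Prime → T.Away (orderOf g)) → T.Preserves G := fun h2 =>
      preserves_all hF (q1_of_away hF hg' hh' hne (h2 g hg') (h2 h hh')) G hL hH
    exact ⟨⟨contractible_of_preserves, fun h2 => h1 (away_of_contractible hF hL h2)⟩,
      ⟨fun h2 => away_of_contractible hF hL (contractible_of_preserves h2), h1⟩⟩

/-- if Q1 fails -/
theorem not_q1 (hF : T.Facts) (hCL : CompactLie) (hQ : ¬ T.Q1) :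
    ∃ S : Set ℕ, S.Subsingleton ∧ ∀ (G : Type) [Group G] [TopologicalSpace G], IsLie G →
      Haagerup G → (T.Preserves G ↔ ∀ g : G, (orderOf g).Prime → orderOf g ∈ S) := by
  refine ⟨{p | p.Prime ∧ T.Away p}, ?_, ?_⟩
  · rintro p ⟨hp, hp1⟩ q ⟨hq, hq1⟩
    by_contra hne
    exact hQ (q1_of_away hF hp hq hne hp1 hq1)
  · intro G _ _ hL hH
    rw [(main_all hF hCL G hL hH).2]
    constructor
    · intro h g hg
      exact ⟨hg, h g hg⟩
    · intro h g hg
      exact (h g hg).2

/-- groups with elements of two different prime orders -/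
theorem two_primes (hF : T.Facts) (G : Type) [Group G] [TopologicalSpace G]
    (hL : IsLie G) (g h : G) (hg : (orderOf g).Prime) (hh : (orderOf h).Prime)
    (hne : orderOf g ≠ orderOf h) : (T.Contractible G → T.Q1) ∧
    (Haagerup G → (T.Q1 ↔ T.Preserves G) ∧ (T.Q1 ↔ T.Contractible G)) := by
  have h1 := q1_of_two hF G hL g h hg hh hne
  refine ⟨h1, fun hH => ⟨⟨fun hQ => preserves_all hF hQ G hL hH,
    fun hP => h1 (contractible_of_preserves hP)⟩,
    ⟨fun hQ => contractible_of_preserves (preserves_all hF hQ G hL hH), h1⟩⟩⟩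

/-! ### The UCT modulo `p` -/

lemma mod_iso {p : ℕ} {X Y : K} (e : X ≅ Y) (h : T.UCTmod p X) : T.UCTmod p Y := by
  intro B hB
  obtain ⟨h1, h2⟩ := h B hB
  constructor
  · intro f g hfg
    have h3 : (fun f : X ⟶ B => (p : ℤ) • f) (e.hom ≫ f)
        = (fun f : X ⟶ B => (p : ℤ) • f) (e.hom ≫ g) := by
      change (p : ℤ) • (e.hom ≫ f) = (p : ℤ) • (e.hom ≫ g)
      have hfg' : (p : ℤ) • f = (p : ℤ) • g := hfg
      rw [← Preadditive.comp_zsmul, ← Preadditive.comp_zsmul, hfg']
    exact (cancel_epi _).mp (h1 h3)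
  · intro f
    obtain ⟨g, hg⟩ := h2 (e.hom ≫ f)
    refine ⟨e.inv ≫ g, ?_⟩
    have hg' : (p : ℤ) • g = e.hom ≫ f := hg
    change (p : ℤ) • (e.inv ≫ g) = f
    rw [← Preadditive.comp_zsmul, hg', Iso.inv_hom_id_assoc]

lemma mod_shift {p : ℕ} {X : K} (h : T.UCTmod p X) (n : ℤ) : T.UCTmod p (X⟦n⟧) := by
  intro B hB
  obtain ⟨h1, h2⟩ := mod_iso (shiftShiftNeg X n).symm h _ (ktriv_shift hB (-n))
  constructor
  · intro f g hfg
    refine (shiftFunctor K (-n)).map_injective (h1 ?_)
    have hfg' : (p : ℤ) • f = (p : ℤ) • g := hfg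
    change (p : ℤ) • (shiftFunctor K (-n)).map f = (p : ℤ) • (shiftFunctor K (-n)).map g
    rw [← Functor.map_zsmul, ← Functor.map_zsmul, hfg']
  · intro f
    obtain ⟨g, hg⟩ := h2 ((shiftFunctor K (-n)).map f)
    obtain ⟨g', rfl⟩ := (shiftFunctor K (-n)).map_surjective g
    refine ⟨g', (shiftFunctor K (-n)).map_injective ?_⟩
    have hg' : (p : ℤ) • (shiftFunctor K (-n)).map g' = (shiftFunctor K (-n)).map f := hg
    change (shiftFunctor K (-n)).map ((p : ℤ) • g') = _
    rw [Functor.map_zsmul, hg']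

lemma mod_zero {p : ℕ} {X B : K} (h : T.UCTmod p X) (hB : T.KTrivial B) {f : X ⟶ B}
    (hf : (p : ℤ) • f = 0) : f = 0 := by
  refine (h B hB).1 ?_
  change (p : ℤ) • f = (p : ℤ) • (0 : X ⟶ B)
  rw [hf, smul_zero]

lemma mod_div {p : ℕ} {X B : K} (h : T.UCTmod p X) (hB : T.KTrivial B) (f : X ⟶ B) :
    ∃ g : X ⟶ B, (p : ℤ) • g = f := (h B hB).2 f

lemma mod_of {p : ℕ} {X : K}
    (h1 : ∀ B, T.KTrivial B → ∀ f : X ⟶ B, (p : ℤ) • f = 0 → f = 0)
    (h2 : ∀ B, T.KTrivial B → ∀ f : X ⟶ B, ∃ g : X ⟶ B, (p : ℤ) • g = f) : T.UCTmod p X := by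
  intro B hB
  refine ⟨fun f g hfg => ?_, fun f => h2 B hB f⟩
  have hfg' : (p : ℤ) • f = (p : ℤ) • g := hfg
  refine sub_eq_zero.mp (h1 B hB _ ?_)
  rw [smul_sub, hfg', sub_self]

lemma mod_of_uct {p : ℕ} {X : K} (h : T.UCT X) : T.UCTmod p X :=
  mod_of (fun B hB f _ => UCT_zero h hB f) (fun B hB f => ⟨0, by
    rw [UCT_zero h hB f, smul_zero]⟩)

lemma mod_of_inverts {p : ℕ} {X : K} (h : Inverts p X) : T.UCTmod p X := by
  refine mod_of (fun B _ f hf => ?_) (fun B _ f => inverts_comp h f)
  have h' : IsIso ((p : ℤ) • 𝟙 X) := h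
  have h1 : ((p : ℤ) • 𝟙 X) ≫ f = ((p : ℤ) • 𝟙 X) ≫ 0 := by
    rw [Preadditive.zsmul_comp, Category.id_comp, hf, comp_zero]
  exact (cancel_epi _).mp h1

/-- the UCT modulo `p` passes to localizing subcategories -/
lemma mod_loc {p : ℕ} {S : K → Prop} (hS : ∀ X, S X → T.UCTmod p X) {X : K} (h : Loc S X) :
    T.UCTmod p X := by
  induction h with
  | of X h => exact hS X h
  | iso X Y e _ h => exact mod_iso e h
  | shift X n _ h => exact mod_shift h n
  | cone D hD _ _ h1 h2 =>
    refine mod_of (fun B hB f hf => ?_) (fun B hB f => ?_)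
    · have h3 : D.mor₂ ≫ f = 0 := mod_zero h2 hB (by
        rw [← Preadditive.comp_zsmul, hf, comp_zero])
      obtain ⟨g, rfl⟩ := Triangle.yoneda_exact₃ D hD f h3
      have h4 : D.mor₃ ≫ ((p : ℤ) • g) = 0 := by rw [Preadditive.comp_zsmul, hf]
      obtain ⟨m, hm, k, hk⟩ : ∃ m : D.obj₁⟦(1 : ℤ)⟧ ⟶ D.obj₂⟦(1 : ℤ)⟧, D.mor₃ ≫ m = 0 ∧
          ∃ k : D.obj₂⟦(1 : ℤ)⟧ ⟶ B, (p : ℤ) • g = m ≫ k :=
        ⟨(D.rotate.rotate).mor₂, comp_distTriang_mor_zero₁₂ _
          (rot_of_distTriang _ (rot_of_distTriang _ hD)),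
          Triangle.yoneda_exact₂ _ (rot_of_distTriang _ (rot_of_distTriang _ hD))
            ((p : ℤ) • g) h4⟩
      obtain ⟨k', hk'⟩ := mod_div (mod_shift h2 1) hB k
      have h5 : (p : ℤ) • (g - m ≫ k') = 0 := by
        rw [smul_sub, ← Preadditive.comp_zsmul, hk', hk, sub_self]
      have h6 := sub_eq_zero.mp (mod_zero (mod_shift h1 1) hB h5)
      rw [h6, ← Category.assoc, hm, zero_comp]
    · obtain ⟨u, hu⟩ := mod_div h2 hB (D.mor₂ ≫ f)
      have h3 : D.mor₁ ≫ u = 0 := mod_zero h1 hB (by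
        rw [← Preadditive.comp_zsmul, hu, ← Category.assoc, comp_distTriang_mor_zero₁₂ D hD,
          zero_comp])
      obtain ⟨w, hw⟩ := Triangle.yoneda_exact₂ D hD u h3
      have h4 : D.mor₂ ≫ (f - (p : ℤ) • w) = 0 := by
        rw [Preadditive.comp_sub, Preadditive.comp_zsmul, ← hw, hu, sub_self]
      obtain ⟨g, hg⟩ := Triangle.yoneda_exact₃ D hD _ h4
      obtain ⟨g', hg'⟩ := mod_div (mod_shift h1 1) hB g
      refine ⟨w + D.mor₃ ≫ g', ?_⟩
      rw [smul_add, ← Preadditive.comp_zsmul, hg', ← hg]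
      abel
  | coprod ι X c hc _ h =>
    obtain ⟨hc⟩ := hc
    refine mod_of (fun B hB f hf => ?_) (fun B hB f => ?_)
    · refine Cofan.IsColimit.hom_ext hc _ _ fun i => ?_
      rw [comp_zero]
      exact mod_zero (h i) hB (by rw [← Preadditive.comp_zsmul, hf, comp_zero])
    · choose g hg using fun i => mod_div (h i) hB (c.inj i ≫ f)
      refine ⟨Cofan.IsColimit.desc hc g, Cofan.IsColimit.hom_ext hc _ _ fun i => ?_⟩
      rw [Preadditive.comp_zsmul, Cofan.IsColimit.fac, hg]

/-- crossed products by finite `p`-groups -/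
lemma mod_pgroup (hF : T.Facts) {p : ℕ} (hp : p.Prime) : ∀ (n : ℕ) (E : Type) [Group E]
    [TopologicalSpace E] [DiscreteTopology E] [Finite E], Nat.card E = n →
    (∀ q : ℕ, q.Prime → q ∣ n → q = p) → ∀ A : T.Alg E, T.UCTmod p (T.under A) →
    T.UCTmod p (T.cross A) := by
  intro n
  induction n using Nat.strong_induction_on with
  | _ n ih =>
    intro E _ _ _ _ hn hq A hA
    classical
    have : Fact p.Prime := ⟨hp⟩
    rcases subsingleton_or_nontrivial E with hs | hs
    · obtain ⟨e⟩ := hF.trivial E A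
      exact mod_iso e.symm hA
    · have hpg : IsPGroup p E := by
        rw [IsPGroup.iff_card]
        refine ⟨(Nat.card E).factorization p, ?_⟩
        rw [← Nat.eq_pow_of_factorization_eq_single Nat.card_pos.ne' (n := Nat.card E) (p := p)
          (k := (Nat.card E).factorization p) ?_]
        ext r
        by_cases hr : r = p
        · rw [hr, Finsupp.single_eq_same]
        · rw [Finsupp.single_eq_of_ne hr]
          by_contra h0
          have h1 : r ∈ (Nat.card E).primeFactors := by
            rw [← Nat.support_factorization]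
            exact Finsupp.mem_support_iff.mpr h0
          exact hr (hq r (Nat.prime_of_mem_primeFactors h1)
            (by rw [← hn]; exact Nat.dvd_of_mem_primeFactors h1))
      have hZ : Nontrivial (Subgroup.center E) := hpg.center_nontrivial
      have hc1 : Nat.card (Subgroup.center E) ≠ 1 := Finite.one_lt_card.ne'
      obtain ⟨r, hrp, hrd⟩ := Nat.exists_prime_and_dvd hc1
      have hrp' : r = p := hq r hrp (by
        rw [← hn]; exact hrd.trans (Subgroup.card_subgroup_dvd_card _))
      rw [hrp'] at hrd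
      obtain ⟨z, hz⟩ := exists_prime_orderOf_dvd_card' p hrd
      let N : Subgroup E := Subgroup.zpowers (z : E)
      have hzo : orderOf (z : E) = p := by rw [Subgroup.orderOf_coe, hz]
      have hNc : Nat.card N = p := by rw [Nat.card_zpowers, hzo]
      have hNn : N.Normal := by
        refine ⟨fun x hx g => ?_⟩
        have h1 : x ∈ Subgroup.center E := by
          obtain ⟨k, rfl⟩ := hx
          exact Subgroup.zpow_mem _ z.2 k
        rw [Subgroup.mem_center_iff.mp h1 g, mul_inv_cancel_right]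
        exact hx
      have hcard := Subgroup.card_eq_card_quotient_mul_card_subgroup N
      rw [hNc, hn] at hcard
      have hq0 : 0 < Nat.card (E ⧸ N) := Nat.card_pos
      have hlt : Nat.card (E ⧸ N) < n := by
        rw [hcard]
        have h2 := hp.two_le
        nlinarith
      have := quot_discrete N
      obtain ⟨A', ⟨e1⟩, -, ⟨e2⟩⟩ := hF.iterated E N A
      obtain ⟨M, -, -, h3, h4⟩ := hF.euler p hp N hNc (T.res N A)
      have h5 : T.UCTmod p (T.cross (T.res N A)) := by
        refine mod_loc ?_ h4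
        rintro X (rfl | rfl)
        · rw [hF.under_res]; exact hA
        · exact mod_of_inverts h3
      exact mod_iso e2 (ih _ hlt (E ⧸ N) rfl
        (fun q hq1 hqd => hq q hq1 (by rw [hcard]; exact hqd.mul_right _)) A'
        (mod_iso e1.symm h5))

/-- **Groups with `p`-torsion only**: the UCT modulo `p` is preserved -/
theorem mod_cross (hF : T.Facts) (hCL : CompactLie) {p : ℕ} (hp : p.Prime) (G : Type) [Group G]
    [TopologicalSpace G] (hL : IsLie G) (hH : Haagerup G)
    (hG : ∀ g : G, (orderOf g).Prime → orderOf g = p) (A : T.Alg G) (hA : T.UCT (T.under A)) :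
    T.UCTmod p (T.cross A) := by
  have := hL.1
  refine mod_loc ?_ (hF.higsonKasparov G hL hH A)
  rintro X ⟨H, hHc, rfl⟩
  have hfin : Finite H := by
    by_contra hinf
    obtain ⟨q, hqp, hq⟩ := Nat.exists_infinite_primes (p + 1)
    obtain ⟨h, -, hh⟩ := hCL G hL H hHc hinf q hq
    have h1 := hG h (by rw [hh]; exact hq)
    omega
  refine mod_pgroup hF hp _ H rfl (fun q hq hqd => ?_) _ (mod_of_uct (by
    rw [hF.under_res]; exact hA))
  have : Fact q.Prime := ⟨hq⟩
  obtain ⟨z, hz⟩ := exists_prime_orderOf_dvd_card' q hqd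
  have h1 := hG (z : G) (by rw [Subgroup.orderOf_coe, hz]; exact hq)
  rw [← h1, Subgroup.orderOf_coe, hz]

end cat

end Pool.Agent.W2helper33.UC
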