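import Mathlib
import Pool.Agent.W2helper33.UC.DescDefs
import Pool.Agent.W2helper33.UC.Main

/-!
# The UCT and crossed products: descent from `A ⋊ G` to `A`
-/

set_option autoImplicit false
set_option linter.unusedSectionVars false

namespace Pool.Agent.W2helper33.UC

open CategoryTheory CategoryTheory.Limits CategoryTheory.Pretriangulated

universe u v w

variable {K : Type u} [Category.{v} K] [Preadditive K] [HasZeroObject K] [HasShift K ℤ]
  [∀ n : ℤ, (shiftFunctor K n).Additive] [Pretriangulated K] {T : Theory.{u, w} K}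

/-- **Two primes**: Q1 follows from Q1 with `p` inverted and Q1 with `q` inverted -/
theorem q1_of_away' (hU : T.UHF) {p q : ℕ} (hp : p.Prime) (hq : q.Prime) (hne : p ≠ q)
    (h1 : T.Away p) (h2 : T.Away q) : T.Q1 := by
  intro A hA
  refine uct_of_zero fun B hB f => ?_
  obtain ⟨Ap, -, ι, -, -, -, hn1, hi1, -, htel⟩ := hU A p hp
  obtain ⟨Aq, C, κ, a, b, htri, hn2, hi2, hC, -⟩ := hU A q hq
  have u1 : T.UCT Ap := h1 Ap (hn1 hA) hi1
  have u2 : T.UCT Aq := h2 Aq (hn2 hA) hi2
  have hCp : Inverts p C := hC p hp hne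
  have hdiv : ∀ f : A ⟶ B, ∃ g : A ⟶ B, (p : ℤ) • g = f := by
    intro f
    have hB1 : T.KTrivial (B⟦(1 : ℤ)⟧) := ktriv_shift hB 1
    obtain ⟨h, hh⟩ := inverts_comp hCp (b ≫ (shiftFunctor K (1 : ℤ)).map f)
    obtain ⟨f', hf'⟩ := Triangle.yoneda_exact₃ _ htri h (UCT_zero u2 hB1 _)
    change A⟦(1 : ℤ)⟧ ⟶ B⟦(1 : ℤ)⟧ at f'
    change h = b ≫ f' at hf'
    have h3 : b ≫ ((p : ℤ) • f' - (shiftFunctor K (1 : ℤ)).map f) = 0 := by
      rw [Preadditive.comp_sub, Preadditive.comp_zsmul, ← hf', hh, sub_self]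
    obtain ⟨k, hk⟩ := Triangle.yoneda_exact₂ _ (rot_of_distTriang _ (rot_of_distTriang _ htri))
      ((p : ℤ) • f' - (shiftFunctor K (1 : ℤ)).map f) h3
    have hk0 : k = 0 := UCT_zero (uct_shift u2 1) hB1 k
    rw [hk0, comp_zero] at hk
    obtain ⟨g, rfl⟩ := (shiftFunctor K (1 : ℤ)).map_surjective f'
    refine ⟨g, (shiftFunctor K (1 : ℤ)).map_injective ?_⟩
    rw [Functor.map_zsmul]
    exact sub_eq_zero.mp hk
  choose d hd using hdiv
  obtain ⟨g, hg⟩ := htel B (fun n => d^[n] f) (fun n => by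
    rw [Function.iterate_succ_apply']
    exact hd _)
  have : f = ι ≫ g := hg.symm
  rw [this, UCT_zero u1 hB g, comp_zero]

/-- retracts -/
lemma uct_retract {X Y : K} (i : X ⟶ Y) (r : Y ⟶ X) (h : i ≫ r = 𝟙 X) (hY : T.UCT Y) :
    T.UCT X := by
  refine uct_of_zero fun B hB f => ?_
  have h1 : r ≫ f = 0 := UCT_zero hY hB _
  have h2 : f = i ≫ r ≫ f := by rw [← Category.assoc, h, Category.id_comp]
  rw [h2, h1, comp_zero]

/-- summands of coproducts -/
lemma uct_summand {ι : Type} {X : K} (c : Cofan (fun _ : ι => X)) (hc : IsColimit c) (j : ι)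
    (h : T.UCT c.pt) : T.UCT X :=
  uct_retract (c.inj j) (Cofan.IsColimit.desc hc (fun _ => 𝟙 X))
    (Cofan.IsColimit.fac hc (fun _ => 𝟙 X) j) h

lemma descendsZero_of_descends {G : Type} [Group G] [TopologicalSpace G] (h : T.Descends G) :
    T.DescendsZero G :=
  fun A hn hz => h A hn (uct_isZero hz)

lemma descends_of_q1 (h : T.Q1) (G : Type) [Group G] [TopologicalSpace G] : T.Descends G :=
  fun _ hn _ => h _ hn

/-- subgroups -/
lemma descendsZero_subgroup (hF : T.DescentFacts) {G : Type} [Group G] [TopologicalSpace G]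
    [DiscreteTopology G] [Countable G] (H : Subgroup G) (h : T.DescendsZero G) :
    T.DescendsZero H := by
  intro B hn hz
  obtain ⟨A, ⟨c, ⟨hc⟩, ⟨e⟩⟩, h2, ⟨e'⟩⟩ := hF.induced G H B
  have h3 : T.UCT (T.under A) := h A (h2 hn) (hz.of_iso e')
  exact uct_summand c hc (QuotientGroup.mk 1) (uct_iso e h3)

/-- groups of prime order: necessity -/
lemma away_of_descends (hF : T.DescentFacts) {p : ℕ} (hp : p.Prime) (C : Type) [Group C]
    [TopologicalSpace C] [DiscreteTopology C] (hC : Nat.card C = p) (h : T.DescendsZero C) :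
    T.Away p := by
  intro A hn hi
  obtain ⟨N, h1, h2, c, ⟨hc⟩, ⟨e⟩⟩ := hF.euler_trivial p hp C hC A hi
  obtain ⟨N', ⟨e1⟩, h3, ⟨e2⟩⟩ := hF.takai p hp C hC N
  have h4 : T.UCT (T.under N') := h N' (h3 (h2 hn)) (h1.of_iso e2)
  exact uct_summand c hc ⟨0, by have := hp.two_le; omega⟩ (uct_iso e (uct_iso e1 h4))

/-- groups of prime order: preservation -/
lemma preserves_prime' (hF : T.DescentFacts) {p : ℕ} (hp : p.Prime) (h : T.Away p) (C : Type)
    [Group C] [TopologicalSpace C] [DiscreteTopology C] (hC : Nat.card C = p) :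
    T.Preserves C := by
  have : Finite C := Nat.finite_of_card_ne_zero (by rw [hC]; exact hp.ne_zero)
  intro A hn hu
  obtain ⟨N, h1, h2, h3, h4⟩ := hF.euler p hp C hC A
  refine uct_loc ?_ h4
  rintro X (rfl | rfl)
  · exact hu
  · exact h _ (hF.nuclear_cross C N (h2 hn)) h3

/-- groups of prime order: sufficiency -/
lemma descends_prime (hF : T.DescentFacts) {p : ℕ} (hp : p.Prime) (h : T.Away p) (C : Type)
    [Group C] [TopologicalSpace C] [DiscreteTopology C] (hC : Nat.card C = p) :
    T.Descends C := by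
  have : Finite C := Nat.finite_of_card_ne_zero (by rw [hC]; exact hp.ne_zero)
  intro A hn hu
  obtain ⟨A', ⟨e1⟩, h2, ⟨e2⟩⟩ := hF.takai p hp C hC A
  exact uct_iso e2 (preserves_prime' hF hp h C hC A' (h2 hn) (uct_iso e1.symm hu))

/-- finite `p`-groups -/
lemma descends_pgroup (hF : T.DescentFacts) {p : ℕ} (hp : p.Prime) (h : T.Away p) :
    ∀ (n : ℕ) (E : Type) [Group E] [TopologicalSpace E] [DiscreteTopology E] [Finite E],
    Nat.card E = n → IsPGroup p E → T.Descends E := by
  intro n
  induction n using Nat.strong_induction_on with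
  | _ n ih =>
    intro E _ _ _ _ hn hpg A hnA hA
    classical
    have : Fact p.Prime := ⟨hp⟩
    rcases subsingleton_or_nontrivial E with hs | hs
    · obtain ⟨e⟩ := hF.trivial E A
      exact uct_iso e hA
    · have hZ : Nontrivial (Subgroup.center E) := hpg.center_nontrivial
      obtain ⟨k, hk⟩ := IsPGroup.iff_card.mp (hpg.to_subgroup (Subgroup.center E))
      have hpd : p ∣ Nat.card (Subgroup.center E) := by
        rw [hk]
        refine dvd_pow_self p fun h0 => ?_
        rw [h0, pow_zero] at hk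
        exact Finite.one_lt_card.ne' hk
      obtain ⟨z, hz⟩ := exists_prime_orderOf_dvd_card' p hpd
      let N : Subgroup E := Subgroup.zpowers (z : E)
      have hzo : orderOf (z : E) = p := by rw [Subgroup.orderOf_coe, hz]
      have hNc : Nat.card N = p := by rw [Nat.card_zpowers, hzo]
      have hNn : N.Normal := by
        refine ⟨fun x hx g => ?_⟩
        have h1 : x ∈ Subgroup.center E := by
          obtain ⟨k, rfl⟩ := hx
          exact Subgroup.zpow_mem _ z.2 k
        rw [Subgroup.mem_center_iff.mp h1 g, mul_inv_cancel_right]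
        exact hx
      have hcard := Subgroup.card_eq_card_quotient_mul_card_subgroup N
      rw [hNc, hn] at hcard
      have hq0 : 0 < Nat.card (E ⧸ N) := Nat.card_pos
      have hlt : Nat.card (E ⧸ N) < n := by
        rw [hcard]
        have h2 := hp.two_le
        nlinarith
      have := quot_discrete N
      obtain ⟨A', ⟨e1⟩, hn', ⟨e2⟩⟩ := hF.iterated E N A
      have hn1 : T.Nuclear (T.cross (T.res N A)) := hF.nuclear_cross N _
        (by rw [hF.under_res]; exact hnA)
      have h5 : T.UCT (T.under A') := ih _ hlt (E ⧸ N) rfl (hpg.to_quotient N) A' (hn' hn1)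
        (uct_iso e2.symm hA)
      have h6 := descends_prime hF hp h N hNc (T.res N A) (by rw [hF.under_res]; exact hnA)
        (uct_iso e1 h5)
      rwa [hF.under_res] at h6

/-- groups with an element of infinite order -/
lemma q1_of_infinite (hF : T.DescentFacts) {G : Type} [Group G] [TopologicalSpace G]
    [DiscreteTopology G] [Countable G] {g : G} (hg : orderOf g = 0) (h : T.DescendsZero G) :
    T.Q1 := by
  have h1 := descendsZero_subgroup hF (Subgroup.zpowers g) h
  have hinf : Infinite (Subgroup.zpowers g) := by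
    rw [← not_finite_iff_infinite]
    intro hfin
    have h2 : Nat.card (Subgroup.zpowers g) = 0 := by rw [Nat.card_zpowers, hg]
    exact Nat.card_pos.ne' h2
  intro A hn
  obtain ⟨A', h2, h3, i, r, hir⟩ := hF.integers (Subgroup.zpowers g) A hn
  exact uct_retract i r hir (h1 A' h2 h3)

/-- elements of prime order -/
lemma away_of_element (hF : T.DescentFacts) {G : Type} [Group G] [TopologicalSpace G]
    [DiscreteTopology G] [Countable G] {g : G} (hg : (orderOf g).Prime) (h : T.DescendsZero G) :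
    T.Away (orderOf g) :=
  away_of_descends hF hg (Subgroup.zpowers g) (Nat.card_zpowers g)
    (descendsZero_subgroup hF (Subgroup.zpowers g) h)

/-- a group which is not a `p`-group for any `p` -/
lemma not_pgroup {G : Type} [Group G] (h : ∀ p : ℕ, p.Prime → ¬ IsPGroup p G) :
    (∃ g : G, orderOf g = 0) ∨
      ∃ g k : G, (orderOf g).Prime ∧ (orderOf k).Prime ∧ orderOf g ≠ orderOf k := by
  by_cases h0 : ∃ g : G, orderOf g = 0
  · exact Or.inl h0
  right
  push Not at h0
  have h1 : ∃ g : G, g ≠ 1 := by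
    by_contra hcon
    push Not at hcon
    exact h 2 Nat.prime_two fun g => ⟨0, by rw [hcon g]; simp⟩
  obtain ⟨g, hg⟩ := h1
  have hg1 : orderOf g ≠ 1 := fun h2 => hg (orderOf_eq_one_iff.mp h2)
  obtain ⟨p, hp, hpd⟩ := Nat.exists_prime_and_dvd hg1
  have h2 := h p hp
  rw [IsPGroup] at h2
  push Not at h2
  obtain ⟨k, hk⟩ := h2
  have h3 : ∃ q : ℕ, q.Prime ∧ q ∣ orderOf k ∧ q ≠ p := by
    by_contra hcon
    push Not at hcon
    have h4 : orderOf k = p ^ (orderOf k).primeFactorsList.length :=
      Nat.eq_prime_pow_of_unique_prime_dvd (h0 k) fun {d} hd hdd => hcon d hd hdd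
    exact hk _ (by rw [← h4]; exact pow_orderOf_eq_one k)
  obtain ⟨q, hq, hqd, hqp⟩ := h3
  refine ⟨g ^ (orderOf g / p), k ^ (orderOf k / q), ?_, ?_, ?_⟩
  · rw [orderOf_pow_orderOf_div (h0 g) hpd]; exact hp
  · rw [orderOf_pow_orderOf_div (h0 k) hqd]; exact hq
  · rw [orderOf_pow_orderOf_div (h0 g) hpd, orderOf_pow_orderOf_div (h0 k) hqd]
    exact hqp.symm

/-- **Descent for groups which are not `p`-groups is equivalent to Q1.** -/
theorem descent_iff (hF : T.DescentFacts) (G : Type) [Group G] [TopologicalSpace G]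
    [DiscreteTopology G] [Countable G] (hG : ∀ p : ℕ, p.Prime → ¬ IsPGroup p G) :
    (T.Q1 ↔ T.Descends G) ∧ (T.Q1 ↔ T.DescendsZero G) := by
  have key : T.DescendsZero G → T.Q1 := by
    intro h
    rcases not_pgroup hG with ⟨g, hg⟩ | ⟨g, k, hg, hk, hne⟩
    · exact q1_of_infinite hF hg h
    · exact q1_of_away' hF.uhf hg hk hne (away_of_element hF hg h) (away_of_element hF hk h)
  exact ⟨⟨fun h => descends_of_q1 h G, fun h => key (descendsZero_of_descends h)⟩,
    ⟨fun h => descendsZero_of_descends (descends_of_q1 h G), key⟩⟩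

/-- **Descent for finite `p`-groups is equivalent to Q1 with `p` inverted.** -/
theorem descent_pgroup (hF : T.DescentFacts) {p : ℕ} (hp : p.Prime) (G : Type) [Group G]
    [TopologicalSpace G] [DiscreteTopology G] [Finite G] [Nontrivial G] (hG : IsPGroup p G) :
    (T.Away p ↔ T.Descends G) ∧ (T.Away p ↔ T.DescendsZero G) := by
  have : Fact p.Prime := ⟨hp⟩
  have key : T.DescendsZero G → T.Away p := by
    intro h
    obtain ⟨k, hk⟩ := IsPGroup.iff_card.mp hG
    have hpd : p ∣ Nat.card G := by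
      rw [hk]
      refine dvd_pow_self p fun h0 => ?_
      rw [h0, pow_zero] at hk
      exact Finite.one_lt_card.ne' hk
    obtain ⟨z, hz⟩ := exists_prime_orderOf_dvd_card' p hpd
    have h1 := away_of_element hF (g := z) (by rw [hz]; exact hp) h
    rwa [hz] at h1
  have key' : T.Away p → T.Descends G := fun h => descends_pgroup hF hp h _ G rfl hG
  exact ⟨⟨key', fun h => key (descendsZero_of_descends h)⟩,
    ⟨fun h => descendsZero_of_descends (key' h), key⟩⟩

end Pool.Agent.W2helper33.UC
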